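import Mathlib

/-!
Randomised truthful scheduling on two unrelated machines: a truthful-in-expectation
mechanism with approximation ratio 1.507 for any number of jobs.
-/

namespace Pool.Agent.Results.MP_2c6a66_lc.TruthfulExp

open MeasureTheory

/-- An assignment of `n` jobs to the machines `0` and `1`. -/
abbrev Assign (n : ℕ) := Fin n → Fin 2

/-- A profile of processing times: `t i k` is the time machine `i` needs for job `k`. -/
abbrev Times (n : ℕ) := Fin 2 → Fin n → ℝ

/-- All processing times are nonnegative. -/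
def NonnegTimes {n : ℕ} (t : Times n) : Prop := ∀ i k, 0 ≤ t i k

/-- Total time of the jobs that `S` assigns to machine `i`, when job `k` takes time `v k`. -/
noncomputable def load {n : ℕ} (i : Fin 2) (v : Fin n → ℝ) (S : Assign n) : ℝ :=
  ∑ k, if S k = i then v k else 0

/-- The makespan of assignment `S` for processing times `t`. -/
noncomputable def makespan {n : ℕ} (t : Times n) (S : Assign n) : ℝ :=
  max (load 0 (t 0) S) (load 1 (t 1) S)

/-- The optimal makespan. -/
noncomputable def opt {n : ℕ} (t : Times n) : ℝ := ⨅ S : Assign n, makespan t S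

/-- A randomised mechanism for `n` jobs: on reports `b` and random seed `ω` (drawn from a
probability space) it outputs the assignment `alloc b ω` and pays `pay b ω i` to agent `i`. -/
structure Mechanism (n : ℕ) where
  Ω : Type
  inst : MeasurableSpace Ω
  μ : Measure Ω
  prob : IsProbabilityMeasure μ
  alloc : Times n → Ω → Assign n
  pay : Times n → Ω → Fin 2 → ℝ
  alloc_meas : ∀ b, Measurable (alloc b)
  pay_int : ∀ b i, Integrable (fun ω => pay b ω i) μ

/-- Expected utility of agent `i` with true times `v` when the reports are `b`. -/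
noncomputable def expUtility {n : ℕ} (M : Mechanism n) (i : Fin 2) (v : Fin n → ℝ)
    (b : Times n) : ℝ :=
  letI := M.inst
  ∫ ω, (M.pay b ω i - load i v (M.alloc b ω)) ∂M.μ

/-- Truthfulness in expectation: whatever the other agent reports, reporting the true times
maximises the expected utility. -/
def TruthfulInExpectation {n : ℕ} (M : Mechanism n) : Prop :=
  ∀ b : Times n, NonnegTimes b → ∀ (i : Fin 2) (s : Fin n → ℝ), (∀ k, 0 ≤ s k) →
    expUtility M i (b i) (Function.update b i s) ≤ expUtility M i (b i) b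

/-- The mechanism has approximation ratio `c`: its expected makespan is at most `c` times the
optimal makespan on every instance. -/
def HasRatio {n : ℕ} (M : Mechanism n) (c : ℝ) : Prop :=
  letI := M.inst
  ∀ t : Times n, NonnegTimes t → ∫ ω, makespan t (M.alloc t ω) ∂M.μ ≤ c * opt t

/-! ### The item inequality -/

lemma item_bound {N : ℕ} {y g : ℕ → ℝ} {s v w : ℝ} (hs : 0 ≤ s) (hw : 0 ≤ w)
    (hA : ∀ j < N, ∑ θ ∈ Finset.range (j + 1), max (-1) (y j - g θ) ≤ s)
    (P : ℕ → Prop) [DecidablePred P] (hP : ∀ θ < N, P θ → v ≤ y θ * w)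
    (hlow : ∀ θ θ' : ℕ, θ < N → θ' ≤ θ → P θ → P θ') :
    ∑ θ ∈ Finset.range N, (if P θ then max (-w) (v - w * g θ) else 0) ≤ s * w := by
  classical
  rw [← Finset.sum_filter]
  by_cases hne : ((Finset.range N).filter P).Nonempty
  · set j := ((Finset.range N).filter P).max' hne with hj
    have hjm : j ∈ (Finset.range N).filter P := Finset.max'_mem _ _
    rw [Finset.mem_filter, Finset.mem_range] at hjm
    have hfilter : (Finset.range N).filter P = Finset.range (j + 1) := by
      ext θ
      rw [Finset.mem_filter, Finset.mem_range, Finset.mem_range]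
      constructor
      · rintro ⟨h1, h2⟩
        have : θ ≤ j := Finset.le_max' _ _ (by
          rw [Finset.mem_filter, Finset.mem_range]; exact ⟨h1, h2⟩)
        omega
      · intro h
        exact ⟨by omega, hlow j θ hjm.1 (by omega) hjm.2⟩
    rw [hfilter]
    calc ∑ θ ∈ Finset.range (j + 1), max (-w) (v - w * g θ)
        ≤ ∑ θ ∈ Finset.range (j + 1), w * max (-1) (y j - g θ) := by
          apply Finset.sum_le_sum
          intro θ _
          rw [mul_max_of_nonneg _ _ hw]
          apply max_le_max
          · linarith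
          · have := hP j hjm.1 hjm.2
            nlinarith
      _ = w * ∑ θ ∈ Finset.range (j + 1), max (-1) (y j - g θ) := by rw [Finset.mul_sum]
      _ ≤ w * s := mul_le_mul_of_nonneg_left (hA j hjm.1) hw
      _ = s * w := mul_comm _ _
  · rw [Finset.not_nonempty_iff_eq_empty.mp hne, Finset.sum_empty]
    positivity

lemma sub_add_max {ι : Type*} (s : Finset ι) (w v : ι → ℝ) (g T : ℝ) (hg : 0 ≤ g)
    (hT : ∑ k ∈ s, w k ≤ T) :
    max (-∑ k ∈ s, w k) (∑ k ∈ s, v k - T * g) ≤ ∑ k ∈ s, max (-w k) (v k - w k * g) := by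
  apply max_le
  · rw [← Finset.sum_neg_distrib]
    exact Finset.sum_le_sum fun k _ => le_max_left _ _
  · calc ∑ k ∈ s, v k - T * g ≤ ∑ k ∈ s, v k - (∑ k ∈ s, w k) * g := by nlinarith
      _ = ∑ k ∈ s, (v k - w k * g) := by rw [Finset.sum_sub_distrib, Finset.sum_mul]
      _ ≤ _ := Finset.sum_le_sum fun k _ => le_max_right _ _

/-! ### The mechanism -/

lemma exists_opt {n : ℕ} (t : Times n) : ∃ S : Assign n, makespan t S = opt t :=
  exists_eq_ciInf_of_finite

/-- An optimal assignment for the reported times. -/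
noncomputable def optAssign {n : ℕ} (t : Times n) : Assign n := Classical.choose (exists_opt t)

lemma optAssign_spec {n : ℕ} (t : Times n) : makespan t (optAssign t) = opt t :=
  Classical.choose_spec (exists_opt t)

/-- The threshold rule: machine `0` gets a job with times `(p, q)` iff `p < z * q`. -/
noncomputable def thr (z p q : ℝ) : Fin 2 := if p < z * q then 0 else 1

/-- The allocation of the mechanism with thresholds `x 0, …, x (N-1)` on seed `θ`. -/
noncomputable def mAlloc {n : ℕ} (N : ℕ) (x : ℕ → ℝ) (b : Times n) (θ : Fin N) : Assign n :=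
  fun k => if optAssign b k = 1 then thr (x θ) (b 0 k) (b 1 k)
    else thr (x (Fin.rev θ)) (b 0 k) (b 1 k)

/-- The payments of the mechanism. -/
noncomputable def mPay {n : ℕ} (N : ℕ) (x : ℕ → ℝ) (b : Times n) (i : Fin 2) : ℝ :=
  (N : ℝ)⁻¹ * ∑ j : Fin N, ∑ k, if thr (x j) (b 0 k) (b 1 k) = i then
    (if i = 0 then x j * b 1 k else b 0 k / x j) else 0

/-- The mechanism. -/
noncomputable def mech (n N : ℕ) [NeZero N] (x : ℕ → ℝ) : Mechanism n where
  Ω := Fin N
  inst := ⊤
  μ := @PMF.toMeasure _ ⊤ (PMF.uniformOfFintype (Fin N))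
  prob := @PMF.toMeasure.isProbabilityMeasure _ ⊤ _
  alloc := mAlloc N x
  pay := fun b _ i => mPay N x b i
  alloc_meas := fun b => measurable_from_top
  pay_int := fun b i => by
    have := @PMF.toMeasure.isProbabilityMeasure _ ⊤ (PMF.uniformOfFintype (Fin N))
    exact integrable_const _

lemma integral_unif (N : ℕ) [NeZero N] (f : Fin N → ℝ) :
    (letI : MeasurableSpace (Fin N) := ⊤;
      ∫ ω, f ω ∂(PMF.uniformOfFintype (Fin N)).toMeasure) = (N : ℝ)⁻¹ * ∑ θ, f θ := by
  let _ : MeasurableSpace (Fin N) := ⊤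
  show ∫ ω, f ω ∂(PMF.uniformOfFintype (Fin N)).toMeasure = (N : ℝ)⁻¹ * ∑ θ, f θ
  rw [PMF.integral_eq_sum, Finset.mul_sum]
  simp

lemma sum_marginal {n N : ℕ} (x : ℕ → ℝ) (b : Times n) (i : Fin 2) (v : Fin n → ℝ) :
    ∑ θ : Fin N, load i v (mAlloc N x b θ)
      = ∑ j : Fin N, ∑ k, if thr (x j) (b 0 k) (b 1 k) = i then v k else 0 := by
  unfold load
  rw [Finset.sum_comm]
  conv_rhs => rw [Finset.sum_comm]
  apply Finset.sum_congr rfl
  intro k _
  by_cases h : optAssign b k = 1
  · simp [mAlloc, h]
  · simp only [mAlloc, h, if_false]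
    exact Equiv.sum_comp Fin.revPerm
      (fun j : Fin N => if thr (x j) (b 0 k) (b 1 k) = i then v k else 0)

lemma expUtility_eq {n N : ℕ} [NeZero N] (x : ℕ → ℝ) (i : Fin 2) (v : Fin n → ℝ)
    (b : Times n) :
    expUtility (mech n N x) i v b = (N : ℝ)⁻¹ * ∑ j : Fin N, ∑ k,
      if thr (x j) (b 0 k) (b 1 k) = i then
        ((if i = 0 then x j * b 1 k else b 0 k / x j) - v k) else 0 := by
  have hN : (N : ℝ) ≠ 0 := by exact_mod_cast NeZero.ne N
  have h1 : expUtility (mech n N x) i v b
      = (N : ℝ)⁻¹ * ∑ θ : Fin N, (mPay N x b i - load i v (mAlloc N x b θ)) :=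
    integral_unif N (fun θ => mPay N x b i - load i v (mAlloc N x b θ))
  rw [h1, Finset.sum_sub_distrib, sum_marginal, Finset.sum_const, Finset.card_univ,
    Fintype.card_fin, nsmul_eq_mul, mPay, ← mul_assoc, mul_inv_cancel₀ hN, one_mul,
    ← Finset.sum_sub_distrib]
  congr 1
  apply Finset.sum_congr rfl
  intro j _
  rw [← Finset.sum_sub_distrib]
  apply Finset.sum_congr rfl
  intro k _
  split_ifs <;> simp

lemma mech_truthful {n N : ℕ} [NeZero N] (x : ℕ → ℝ) (hx : ∀ j, 0 < x j) :
    TruthfulInExpectation (mech n N x) := by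
  intro b hb i s hs
  rw [expUtility_eq, expUtility_eq]
  apply mul_le_mul_of_nonneg_left _ (by positivity)
  apply Finset.sum_le_sum
  intro j _
  apply Finset.sum_le_sum
  intro k _
  have hxj := hx j
  have hb0 := hb 0 k
  have hb1 := hb 1 k
  have hsk := hs k
  have z1 : ∀ {z p q : ℝ}, p < z * q → thr z p q = 0 := fun h => if_pos h
  have z2 : ∀ {z p q : ℝ}, ¬ p < z * q → thr z p q = 1 := fun h => if_neg h
  rcases (by omega : i = 0 ∨ i = 1) with rfl | rfl
  · rw [Function.update_self, Function.update_of_ne (by decide : (1 : Fin 2) ≠ 0)]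
    by_cases h1 : s k < x j * b 1 k <;> by_cases h2 : b 0 k < x j * b 1 k
    · rw [z1 h1, z1 h2]
      simp
    · rw [z1 h1, z2 h2]
      simp only [Fin.isValue, if_true, one_ne_zero, if_false]
      linarith
    · rw [z2 h1, z1 h2]
      simp only [Fin.isValue, if_true, one_ne_zero, if_false]
      linarith
    · rw [z2 h1, z2 h2]
      simp
  · rw [Function.update_self, Function.update_of_ne (by decide : (0 : Fin 2) ≠ 1)]
    have key : ∀ q : ℝ, b 0 k < x j * q ↔ b 0 k / x j < q := by
      intro q
      rw [div_lt_iff₀ hxj, mul_comm]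
    by_cases h1 : b 0 k < x j * s k <;> by_cases h2 : b 0 k < x j * b 1 k
    · rw [z1 h1, z1 h2]
      simp
    · rw [z1 h1, z2 h2]
      rw [key] at h2
      simp only [Fin.isValue, if_true, one_ne_zero, zero_ne_one, if_false]
      linarith
    · rw [z2 h1, z1 h2]
      rw [key] at h2
      simp only [Fin.isValue, if_true, one_ne_zero, zero_ne_one, if_false]
      linarith
    · rw [z2 h1, z2 h2]
      simp

/-! ### The approximation ratio -/

lemma mech_ratio {n N : ℕ} [NeZero N] (x g : ℕ → ℝ) (s c : ℝ) (hx : ∀ j, 0 < x j)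
    (hanti : ∀ i j, i ≤ j → j < N → x j ≤ x i) (hg : ∀ j, 0 ≤ g j) (hs : 0 ≤ s)
    (hA : ∀ j < N, ∑ θ ∈ Finset.range (j + 1), max (-1) (x j - g θ) ≤ s)
    (hB : ∀ j < N, ∑ θ ∈ Finset.range (j + 1), max (-1) ((x (N - 1 - j))⁻¹ - g θ) ≤ s)
    (hc : (N : ℝ) + ∑ θ ∈ Finset.range N, g θ + 2 * s ≤ c * N) :
    HasRatio (mech n N x) c := by
  classical
  have hN : (0 : ℝ) < N := by exact_mod_cast Nat.pos_of_ne_zero (NeZero.ne N)
  intro t ht
  have h1 : (letI := (mech n N x).inst;
      ∫ ω, makespan t ((mech n N x).alloc t ω) ∂(mech n N x).μ)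
      = (N : ℝ)⁻¹ * ∑ θ : Fin N, makespan t (mAlloc N x t θ) :=
    integral_unif N (fun θ => makespan t (mAlloc N x t θ))
  refine le_of_eq_of_le h1 ?_
  set S := optAssign t with hS
  set T := opt t with hT
  have hspec : makespan t S = T := optAssign_spec t
  have hl0 : load 0 (t 0) S ≤ T := by rw [← hspec]; exact le_max_left _ _
  have hl1 : load 1 (t 1) S ≤ T := by rw [← hspec]; exact le_max_right _ _
  have hT0 : 0 ≤ T := by
    refine le_trans ?_ hl0
    unfold load
    apply Finset.sum_nonneg
    intro k _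
    split_ifs
    · exact ht 0 k
    · exact le_refl _
  -- the flipped sets
  let F0 : ℕ → Finset (Fin n) := fun θ => Finset.univ.filter
    (fun k => S k = 0 ∧ ¬ (t 0 k < x (N - 1 - θ) * t 1 k))
  let F1 : ℕ → Finset (Fin n) := fun θ => Finset.univ.filter
    (fun k => S k = 1 ∧ t 0 k < x θ * t 1 k)
  have hload0 : ∀ θ : Fin N, load 0 (t 0) (mAlloc N x t θ)
      = load 0 (t 0) S - ∑ k ∈ F0 θ, t 0 k + ∑ k ∈ F1 θ, t 0 k := by
    intro θ
    simp only [load, F0, F1, Finset.sum_filter]
    rw [← Finset.sum_sub_distrib, ← Finset.sum_add_distrib]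
    apply Finset.sum_congr rfl
    intro k _
    have hrev : N - 1 - (θ : ℕ) = N - (θ + 1) := by omega
    rcases (by omega : S k = 0 ∨ S k = 1) with h | h
    · by_cases h2 : t 0 k < x (N - (θ + 1)) * t 1 k
      · simp [mAlloc, ← hS, h, hrev, thr, h2]
      · simp [mAlloc, ← hS, h, hrev, thr, h2]
    · by_cases h2 : t 0 k < x θ * t 1 k
      · simp [mAlloc, ← hS, h, thr, h2]
      · simp [mAlloc, ← hS, h, thr, h2]
  have hload1 : ∀ θ : Fin N, load 1 (t 1) (mAlloc N x t θ)
      = load 1 (t 1) S - ∑ k ∈ F1 θ, t 1 k + ∑ k ∈ F0 θ, t 1 k := by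
    intro θ
    simp only [load, F0, F1, Finset.sum_filter]
    rw [← Finset.sum_sub_distrib, ← Finset.sum_add_distrib]
    apply Finset.sum_congr rfl
    intro k _
    have hrev : N - 1 - (θ : ℕ) = N - (θ + 1) := by omega
    rcases (by omega : S k = 0 ∨ S k = 1) with h | h
    · by_cases h2 : t 0 k < x (N - (θ + 1)) * t 1 k
      · simp [mAlloc, ← hS, h, hrev, thr, h2]
      · simp [mAlloc, ← hS, h, hrev, thr, h2]
    · by_cases h2 : t 0 k < x θ * t 1 k
      · simp [mAlloc, ← hS, h, thr, h2]
      · simp [mAlloc, ← hS, h, thr, h2]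
  have hW0 : ∀ θ, ∑ k ∈ F0 θ, t 0 k ≤ T := by
    intro θ
    refine le_trans ?_ hl0
    simp only [load, F0, Finset.sum_filter]
    apply Finset.sum_le_sum
    intro k _
    have := ht 0 k
    by_cases h : S k = 0
    · simp only [h, true_and, if_true]
      split_ifs <;> linarith
    · simp [h]
  have hW1 : ∀ θ, ∑ k ∈ F1 θ, t 1 k ≤ T := by
    intro θ
    refine le_trans ?_ hl1
    simp only [load, F1, Finset.sum_filter]
    apply Finset.sum_le_sum
    intro k _
    have := ht 1 k
    by_cases h : S k = 1
    · simp only [h, true_and, if_true]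
      split_ifs <;> linarith
    · simp [h]
  have hpt : ∀ θ : Fin N, makespan t (mAlloc N x t θ) ≤ T + T * g θ
      + ∑ k ∈ F0 θ, max (-t 0 k) (t 1 k - t 0 k * g θ)
      + ∑ k ∈ F1 θ, max (-t 1 k) (t 0 k - t 1 k * g θ) := by
    intro θ
    have e0 := sub_add_max (F0 θ) (fun k => t 0 k) (fun k => t 1 k) (g θ) T (hg θ) (hW0 θ)
    have e1 := sub_add_max (F1 θ) (fun k => t 1 k) (fun k => t 0 k) (g θ) T (hg θ) (hW1 θ)
    have a0 := (max_le_iff.mp e0).1
    have a1 := (max_le_iff.mp e0).2
    have b0 := (max_le_iff.mp e1).1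
    have b1 := (max_le_iff.mp e1).2
    unfold makespan
    rw [hload0, hload1]
    apply max_le <;> linarith
  have hsum : ∑ θ : Fin N, makespan t (mAlloc N x t θ) ≤ c * N * T := by
    calc ∑ θ : Fin N, makespan t (mAlloc N x t θ)
        ≤ ∑ θ : Fin N, (T + T * g θ
          + ∑ k ∈ F0 θ, max (-t 0 k) (t 1 k - t 0 k * g θ)
          + ∑ k ∈ F1 θ, max (-t 1 k) (t 0 k - t 1 k * g θ)) :=
          Finset.sum_le_sum fun θ _ => hpt θ
      _ = N * T + T * ∑ θ ∈ Finset.range N, g θ
          + ∑ θ ∈ Finset.range N, ∑ k ∈ F0 θ, max (-t 0 k) (t 1 k - t 0 k * g θ)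
          + ∑ θ ∈ Finset.range N, ∑ k ∈ F1 θ, max (-t 1 k) (t 0 k - t 1 k * g θ) := by
          rw [Finset.sum_add_distrib, Finset.sum_add_distrib, Finset.sum_add_distrib,
            Finset.sum_range, Finset.sum_range, Finset.sum_range, Finset.mul_sum]
          simp
      _ ≤ N * T + T * ∑ θ ∈ Finset.range N, g θ + s * T + s * T := by
          have k0 : ∑ θ ∈ Finset.range N, ∑ k ∈ F0 θ, max (-t 0 k) (t 1 k - t 0 k * g θ)
              ≤ s * T := by
            simp only [F0, Finset.sum_filter]
            rw [Finset.sum_comm]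
            calc _ ≤ ∑ k : Fin n, (if S k = 0 then s * t 0 k else 0) := by
                  apply Finset.sum_le_sum
                  intro k _
                  by_cases h : S k = 0
                  · simp only [h, true_and, if_true]
                    apply item_bound (y := fun j => (x (N - 1 - j))⁻¹) hs (ht 0 k)
                      (fun j hj => hB j hj) (fun θ => ¬ (t 0 k < x (N - 1 - θ) * t 1 k))
                    · intro θ _ hP
                      have := hx (N - 1 - θ)
                      rw [inv_mul_eq_div, le_div_iff₀ this, mul_comm]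
                      exact not_lt.mp hP
                    · intro θ θ' hθ hle hP hc'
                      apply hP
                      refine lt_of_lt_of_le hc' ?_
                      apply mul_le_mul_of_nonneg_right _ (ht 1 k)
                      apply hanti <;> omega
                  · simp [h]
              _ = s * load 0 (t 0) S := by
                  unfold load
                  rw [Finset.mul_sum]
                  apply Finset.sum_congr rfl
                  intro k _
                  split_ifs <;> simp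
              _ ≤ s * T := mul_le_mul_of_nonneg_left hl0 hs
          have k1 : ∑ θ ∈ Finset.range N, ∑ k ∈ F1 θ, max (-t 1 k) (t 0 k - t 1 k * g θ)
              ≤ s * T := by
            simp only [F1, Finset.sum_filter]
            rw [Finset.sum_comm]
            calc _ ≤ ∑ k : Fin n, (if S k = 1 then s * t 1 k else 0) := by
                  apply Finset.sum_le_sum
                  intro k _
                  by_cases h : S k = 1
                  · simp only [h, true_and, if_true]
                    apply item_bound (y := x) hs (ht 1 k)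
                      (fun j hj => hA j hj) (fun θ => t 0 k < x θ * t 1 k)
                    · intro θ _ hP
                      exact hP.le
                    · intro θ θ' hθ hle hP
                      refine lt_of_lt_of_le hP ?_
                      apply mul_le_mul_of_nonneg_right _ (ht 1 k)
                      exact hanti _ _ hle hθ
                  · simp [h]
              _ = s * load 1 (t 1) S := by
                  unfold load
                  rw [Finset.mul_sum]
                  apply Finset.sum_congr rfl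
                  intro k _
                  split_ifs <;> simp
              _ ≤ s * T := mul_le_mul_of_nonneg_left hl1 hs
          linarith
      _ = (N + ∑ θ ∈ Finset.range N, g θ + 2 * s) * T := by ring
      _ ≤ c * N * T := mul_le_mul_of_nonneg_right hc hT0
  calc (N : ℝ)⁻¹ * ∑ θ : Fin N, makespan t (mAlloc N x t θ)
      ≤ (N : ℝ)⁻¹ * (c * N * T) := mul_le_mul_of_nonneg_left hsum (by positivity)
    _ = c * T := by field_simp

/-! ### The numerical tables -/

/-- The thresholds, multiplied by `10000`. -/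
def tabT : List ℕ := [
  29097, 25517, 24300, 23673, 23282, 23010, 22804, 22642, 22507, 22392, 22291, 22201, 22119,
  22044, 21974, 21908, 21846, 21787, 21730, 21674, 21621, 21570, 21520, 21470, 21422, 21375,
  21329, 21284, 21239, 21194, 21151, 21107, 21064, 21022, 20980, 20938, 20896, 20855, 20814,
  20772, 20730, 20688, 20645, 20603, 20561, 20518, 20475, 20431, 20388, 20345, 20301, 20258,
  20214, 20170, 20126, 20082, 20038, 19994, 19950, 19905, 19861, 19817, 19772, 19728, 19683,
  19638, 19594, 19549, 19504, 19459, 19415, 19370, 19325, 19280, 19235, 19190, 19145, 19101,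
  19056, 19012, 18968, 18924, 18880, 18837, 18793, 18749, 18706, 18663, 18620, 18577, 18535,
  18492, 18449, 18406, 18364, 18322, 18280, 18237, 18195, 18153, 18111, 18070, 18028, 17986,
  17945, 17903, 17862, 17820, 17779, 17738, 17697, 17655, 17614, 17574, 17532, 17491, 17450,
  17409, 17368, 17326, 17285, 17244, 17202, 17161, 17120, 17079, 17037, 16996, 16955, 16913,
  16872, 16830, 16789, 16747, 16705, 16664, 16623, 16581, 16539, 16498, 16456, 16415, 16374,
  16331, 16290, 16248, 16207, 16165, 16124, 16082, 16040, 15999, 15957, 15916, 15875, 15833,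
  15792, 15751, 15709, 15668, 15627, 15586, 15545, 15504, 15464, 15423, 15382, 15341, 15301,
  15260, 15220, 15179, 15139, 15098, 15057, 15017, 14977, 14937, 14896, 14856, 14816, 14776,
  14736, 14696, 14656, 14616, 14576, 14536, 14496, 14457, 14416, 14376, 14336, 14296, 14255,
  14215, 14174, 14134, 14093, 14053, 14012, 13971, 13930, 13889, 13848, 13807, 13766, 13725,
  13684, 13642, 13602, 13560, 13519, 13477, 13436, 13394, 13353, 13311, 13269, 13228, 13186,
  13144, 13103, 13061, 13019, 12977, 12935, 12894, 12852, 12810, 12768, 12727, 12685, 12643,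
  12602, 12560, 12519, 12478, 12436, 12395, 12353, 12312, 12271, 12229, 12189, 12147, 12106,
  12065, 12024, 11983, 11942, 11901, 11860, 11819, 11778, 11737, 11696, 11655, 11615, 11574,
  11533, 11493, 11452, 11411, 11371, 11330, 11290, 11250, 11210, 11169, 11130, 11090, 11050,
  11010, 10971, 10931, 10892, 10853, 10814, 10775, 10736, 10697, 10659, 10620, 10582, 10543,
  10505, 10467, 10428, 10391, 10353, 10315, 10278, 10240, 10203, 10166, 10129, 10092, 10055,
  10018, 9981, 9945, 9909, 9872, 9837, 9801, 9765, 9729, 9694, 9658, 9624, 9589, 9553, 9519,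
  9485, 9450, 9416, 9382, 9348, 9314, 9280, 9247, 9214, 9180, 9147, 9115, 9082, 9049, 9017, 8984,
  8952, 8920, 8889, 8857, 8825, 8794, 8763, 8732, 8701, 8670, 8640, 8609, 8579, 8549, 8520, 8490,
  8461, 8432, 8403, 8374, 8345, 8317, 8288, 8260, 8232, 8204, 8177, 8149, 8122, 8095, 8068, 8041,
  8014, 7988, 7962, 7935, 7909, 7883, 7857, 7832, 7807, 7781, 7756, 7731, 7706, 7681, 7656, 7632,
  7608, 7584, 7560, 7536, 7513, 7489, 7466, 7443, 7420, 7397, 7375, 7352, 7330, 7308, 7286, 7264,
  7242, 7221, 7200, 7179, 7158, 7137, 7116, 7096, 7075, 7055, 7035, 7015, 6995, 6975, 6956, 6937,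
  6918, 6898, 6879, 6860, 6842, 6823, 6804, 6786, 6768, 6749, 6731, 6713, 6695, 6677, 6659, 6641,
  6623, 6606, 6588, 6570, 6553, 6535, 6518, 6501, 6484, 6467, 6449, 6433, 6415, 6399, 6382, 6365,
  6349, 6332, 6316, 6299, 6283, 6267, 6250, 6234, 6218, 6202, 6186, 6170, 6154, 6138, 6123, 6107,
  6092, 6077, 6061, 6046, 6031, 6015, 6001, 5986, 5971, 5956, 5941, 5927, 5912, 5898, 5884, 5869,
  5855, 5841, 5827, 5813, 5799, 5785, 5771, 5757, 5744, 5730, 5717, 5703, 5690, 5677, 5664, 5650,
  5637, 5624, 5611, 5598, 5585, 5572, 5560, 5546, 5534, 5521, 5508, 5496, 5483, 5470, 5457, 5445,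
  5433, 5420, 5407, 5395, 5382, 5370, 5358, 5345, 5333, 5321, 5308, 5296, 5284, 5272, 5260, 5247,
  5235, 5223, 5211, 5198, 5187, 5174, 5162, 5151, 5138, 5127, 5115, 5103, 5092, 5080, 5069, 5057,
  5046, 5035, 5024, 5013, 5001, 4990, 4979, 4968, 4958, 4947, 4936, 4926, 4915, 4905, 4894, 4884,
  4874, 4864, 4853, 4843, 4834, 4823, 4814, 4804, 4795, 4785, 4776, 4766, 4757, 4747, 4738, 4728,
  4718, 4708, 4698, 4688, 4678, 4667, 4657, 4647, 4636, 4625, 4614, 4602, 4590, 4578, 4564, 4551,
  4536, 4521, 4504, 4486, 4467, 4444, 4418, 4388, 4350, 4303, 4237, 4141, 3977, 3624]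

/-- The values of the decoupling function, multiplied by `10000`. -/
def tabG : List ℕ := [
  21543, 21487, 21430, 21374, 21317, 21261, 21204, 21147, 21091, 21034, 20978, 20921, 20865,
  20808, 20752, 20695, 20639, 20582, 20525, 20469, 20412, 20356, 20299, 20243, 20186, 20130,
  20073, 20017, 19960, 19904, 19847, 19790, 19734, 19677, 19621, 19564, 19508, 19451, 19353,
  19254, 19156, 19057, 18959, 18860, 18762, 18663, 18565, 18466, 18368, 18269, 18171, 18072,
  17973, 17875, 17776, 17678, 17579, 17481, 17382, 17284, 17185, 17087, 16988, 16890, 16791,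
  16693, 16594, 16496, 16397, 16299, 16200, 16102, 16003, 15905, 15806, 15723, 15656, 15588,
  15521, 15454, 15386, 15319, 15251, 15184, 15117, 15049, 14982, 14914, 14847, 14779, 14712,
  14645, 14577, 14510, 14442, 14375, 14308, 14240, 14173, 14105, 14038, 13971, 13903, 13836,
  13768, 13701, 13634, 13566, 13499, 13431, 13364, 13297, 13229, 13142, 13055, 12967, 12880,
  12793, 12706, 12619, 12531, 12444, 12357, 12270, 12183, 12095, 12008, 11921, 11834, 11746,
  11659, 11572, 11485, 11398, 11310, 11223, 11136, 11049, 10962, 10874, 10787, 10700, 10613,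
  10525, 10438, 10351, 10264, 10177, 10089, 10002, 9925, 9858, 9791, 9724, 9657, 9590, 9523,
  9456, 9390, 9323, 9256, 9189, 9122, 9055, 8988, 8921, 8854, 8787, 8720, 8653, 8586, 8519, 8452,
  8385, 8318, 8251, 8184, 8117, 8050, 7984, 7917, 7850, 7783, 7716, 7649, 7582, 7515, 7448, 7338,
  7228, 7118, 7008, 6898, 6788, 6678, 6568, 6458, 6349, 6239, 6129, 6019, 5909, 5799, 5689, 5579,
  5469, 5359, 5249, 5139, 5029, 4919, 4810, 4700, 4590, 4480, 4370, 4260, 4150, 4040, 3930, 3820,
  3710, 3600, 3490, 3380, 3286, 3208, 3130, 3052, 2974, 2895, 2817, 2739, 2661, 2583, 2504, 2426,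
  2348, 2270, 2192, 2114, 2035, 1957, 1879, 1801, 1723, 1644, 1566, 1488, 1410, 1332, 1254, 1175,
  1097, 1019, 941, 863, 784, 706, 628, 550, 472, 394, 384, 374, 364, 354, 344, 335, 325, 315,
  305, 295, 285, 276, 266, 256, 246, 236, 226, 217, 207, 197, 187, 177, 167, 158, 148, 138, 128,
  118, 108, 99, 89, 79, 69, 59, 49, 40, 30]

def okA (j t : ℕ) : Bool :=
  decide ((j + 1) * t ≤ 14175 + ((tabG.take (j + 1)).map (fun γ => min (10000 + t) γ)).sum)

def okB (j t : ℕ) : Bool :=
  decide ((j + 1) * 100000000 ≤ 14175 * t +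
    ((tabG.take (j + 1)).map (fun γ => min (10000 * (10000 + t)) (γ * t))).sum)

def okAll : ℕ → List ℕ → Bool
  | _, [] => true
  | j, t :: l => okA j t && okB (599 - j) t && okAll (j + 1) l

lemma okAll_true : okAll 0 tabT = true := by decide +kernel

lemma tabT_length : tabT.length = 600 := by decide +kernel

lemma tabT_pos : ∀ a ∈ tabT, 0 < a := by decide +kernel

lemma tabT_chain : tabT.IsChain (· ≥ ·) := by decide +kernel

lemma tabG_sum : ((tabG.take 600).map (fun γ => γ)).sum = 3013535 := by decide +kernel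

lemma okAll_spec : ∀ (l : List ℕ) (k : ℕ), okAll k l = true → ∀ j < l.length,
    okA (k + j) (l.getD j 1) = true ∧ okB (599 - (k + j)) (l.getD j 1) = true := by
  intro l
  induction l with
  | nil => intro k _ j hj; simp at hj
  | cons t l ih =>
    intro k h j hj
    simp only [okAll, Bool.and_eq_true] at h
    rcases j with _ | j
    · simpa using h.1
    · have := ih (k + 1) h.2 j (by simpa using hj)
      rw [show k + (j + 1) = k + 1 + j by ring]
      simpa using this

lemma sum_getD (f : ℕ → ℕ) (hf : f 0 = 0) : ∀ (l : List ℕ) (m : ℕ),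
    ∑ θ ∈ Finset.range m, f (l.getD θ 0) = ((l.take m).map f).sum := by
  intro l
  induction l with
  | nil => intro m; simp [hf]
  | cons a l ih =>
    intro m
    rcases m with _ | m
    · simp
    · rw [Finset.sum_range_succ']
      simp only [List.getD_cons_succ, List.getD_cons_zero, List.take_succ_cons, List.map_cons,
        List.sum_cons]
      rw [ih, add_comm]

/-- The thresholds. -/
noncomputable def xs (j : ℕ) : ℝ := (tabT.getD j 1 : ℝ) / 10000

/-- The decoupling function. -/
noncomputable def gs (j : ℕ) : ℝ := (tabG.getD j 0 : ℝ) / 10000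

lemma tabT_getD_pos (j : ℕ) : 0 < tabT.getD j 1 := by
  by_cases h : j < tabT.length
  · rw [List.getD_eq_getElem _ _ h]
    exact tabT_pos _ (List.getElem_mem h)
  · rw [List.getD_eq_default _ _ (not_lt.mp h)]
    norm_num

lemma xs_pos (j : ℕ) : 0 < xs j := by
  unfold xs
  have : (0 : ℝ) < (tabT.getD j 1 : ℝ) := by exact_mod_cast tabT_getD_pos j
  positivity

lemma gs_nonneg (j : ℕ) : 0 ≤ gs j := by
  unfold gs
  positivity

lemma xs_anti (i j : ℕ) (hij : i ≤ j) (hj : j < 600) : xs j ≤ xs i := by
  rcases hij.eq_or_lt with rfl | hlt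
  · exact le_refl _
  · have hp : tabT.Pairwise (· ≥ ·) := List.isChain_iff_pairwise.mp tabT_chain
    have hj' : j < tabT.length := by rw [tabT_length]; exact hj
    have hi' : i < tabT.length := lt_trans hlt hj'
    have := List.pairwise_iff_getElem.mp hp i j hi' hj' hlt
    unfold xs
    rw [List.getD_eq_getElem _ _ hj', List.getD_eq_getElem _ _ hi']
    have h2 : (tabT[j] : ℝ) ≤ (tabT[i] : ℝ) := by exact_mod_cast this
    linarith

lemma condA (j : ℕ) (hj : j < 600) :
    ∑ θ ∈ Finset.range (j + 1), max (-1) (xs j - gs θ) ≤ (14175 / 10000 : ℝ) := by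
  have h := (okAll_spec tabT 0 okAll_true j (by rw [tabT_length]; exact hj)).1
  rw [zero_add] at h
  unfold okA at h
  rw [decide_eq_true_eq, ← sum_getD (fun γ => min (10000 + tabT.getD j 1) γ) (by simp)] at h
  set t := tabT.getD j 1 with ht
  have h' : ((j : ℝ) + 1) * t ≤ 14175 + ∑ θ ∈ Finset.range (j + 1),
      min (10000 + (t : ℝ)) (tabG.getD θ 0 : ℝ) := by exact_mod_cast h
  have e : ∀ θ, max (-1) (xs j - gs θ)
      = ((t : ℝ) - min (10000 + (t : ℝ)) (tabG.getD θ 0 : ℝ)) / 10000 := by
    intro θ
    unfold xs gs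
    rw [← ht]
    rcases le_total (10000 + (t : ℝ)) (tabG.getD θ 0 : ℝ) with h1 | h1
    · rw [min_eq_left h1, max_eq_left (by linarith)]
      ring
    · rw [min_eq_right h1, max_eq_right (by linarith)]
      ring
  simp only [e]
  rw [← Finset.sum_div, Finset.sum_sub_distrib, Finset.sum_const, Finset.card_range,
    nsmul_eq_mul]
  push_cast
  apply div_le_div_of_nonneg_right _ (by norm_num)
  linarith

lemma condB (j : ℕ) (hj : j < 600) :
    ∑ θ ∈ Finset.range (j + 1), max (-1) ((xs (600 - 1 - j))⁻¹ - gs θ)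
      ≤ (14175 / 10000 : ℝ) := by
  have h := (okAll_spec tabT 0 okAll_true (600 - 1 - j) (by rw [tabT_length]; omega)).2
  rw [zero_add, show 599 - (600 - 1 - j) = j by omega] at h
  unfold okB at h
  set t := tabT.getD (600 - 1 - j) 1 with ht
  have htp : (0 : ℝ) < t := by exact_mod_cast tabT_getD_pos _
  rw [decide_eq_true_eq,
    ← sum_getD (fun γ => min (10000 * (10000 + t)) (γ * t)) (by simp)] at h
  have h' : ((j : ℝ) + 1) * 100000000 ≤ 14175 * t + ∑ θ ∈ Finset.range (j + 1),
      min (10000 * (10000 + (t : ℝ))) ((tabG.getD θ 0 : ℝ) * t) := by exact_mod_cast h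
  have e : ∀ θ, max (-1) ((xs (600 - 1 - j))⁻¹ - gs θ)
      = (100000000 - min (10000 * (10000 + (t : ℝ))) ((tabG.getD θ 0 : ℝ) * t))
        / (10000 * t) := by
    intro θ
    unfold xs gs
    rw [← ht, inv_div]
    rcases le_total (10000 * (10000 + (t : ℝ))) ((tabG.getD θ 0 : ℝ) * t) with h1 | h1
    · rw [min_eq_left h1, max_eq_left]
      · field_simp
        ring
      · rw [div_sub_div _ _ htp.ne' (by norm_num), div_le_iff₀ (by positivity)]
        nlinarith
    · rw [min_eq_right h1, max_eq_right]
      · field_simp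
        ring
      · rw [div_sub_div _ _ htp.ne' (by norm_num), le_div_iff₀ (by positivity)]
        nlinarith
  simp only [e]
  rw [← Finset.sum_div, Finset.sum_sub_distrib, Finset.sum_const, Finset.card_range,
    nsmul_eq_mul]
  push_cast
  rw [div_le_div_iff₀ (by positivity) (by norm_num)]
  nlinarith

lemma condC : ((600 : ℕ) : ℝ) + ∑ θ ∈ Finset.range 600, gs θ + 2 * (14175 / 10000 : ℝ)
    ≤ (1507 / 1000) * ((600 : ℕ) : ℝ) := by
  have h := sum_getD (fun γ => γ) rfl tabG 600
  rw [tabG_sum] at h
  have h' : ∑ θ ∈ Finset.range 600, (tabG.getD θ 0 : ℝ) = 3013535 := by exact_mod_cast h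
  have e : ∑ θ ∈ Finset.range 600, gs θ = 3013535 / 10000 := by
    unfold gs
    rw [← Finset.sum_div, h']
  rw [e]
  norm_num

/-- **Main theorem.** For every number `n` of jobs there is a randomised mechanism for two
unrelated machines that is truthful in expectation and has approximation ratio `1.507`. -/
theorem result : ∀ n : ℕ, ∃ M : Mechanism n, TruthfulInExpectation M ∧
    HasRatio M (1507 / 1000) := by
  intro n
  have : NeZero 600 := ⟨by norm_num⟩
  exact ⟨mech n 600 xs, mech_truthful xs xs_pos,
    mech_ratio xs gs (14175 / 10000) (1507 / 1000) xs_pos xs_anti gs_nonneg (by norm_num)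
      condA condB condC⟩

end Pool.Agent.Results.MP_2c6a66_lc.TruthfulExp
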